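import Pool.Agent.Helper21.TR.Defs
import Pool.Agent.Helper88.MT.Simple
import Pool.Agent.Helper54.MT.Parity

/-!
Blocks B2 and B3: when all root vectors square to zero, the weights are small and the rank of a
root vector is the number of weights with value one on the coroot.
-/

open Module LieModule LieAlgebra LieAlgebra.IsKilling

attribute [local instance 100] LieRing.ofAssociativeRing

namespace TR

open MTP MTP.MF Pool.Agent.Helper54.MT
variable {K : Type*} [Field K] [CharZero K] [IsAlgClosed K]
  {L : Type*} [LieRing L] [LieAlgebra K L] [FiniteDimensional K L] [IsKilling K L]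
  {H : LieSubalgebra K L} [H.IsCartanSubalgebra]
  {V : Type*} [AddCommGroup V] [Module K V] [FiniteDimensional K V]
  [LieRingModule L V] [LieModule K L V] {I : Type*} [Fintype I] (B : WB (V := V) H I)
  {ω : LinearMap.BilinForm K V}

omit [FiniteDimensional K V] in
/-- The relations in the endomorphism ring. -/
lemma triple_rel (hsq : ∀ (α : H.root) (x : L), x ∈ rootSpace H α.1 →
      toEnd K L V x * toEnd K L V x = 0) (α : H.root) :
    ∃ (e f : L), e ∈ rootSpace H α.1 ∧ e ≠ 0 ∧
      toEnd K L V ((coroot α.1 : H) : L) =
        toEnd K L V e * toEnd K L V f - toEnd K L V f * toEnd K L V e ∧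
      toEnd K L V e * toEnd K L V e = 0 ∧ toEnd K L V f * toEnd K L V f = 0 ∧
      toEnd K L V e * toEnd K L V f * toEnd K L V e = toEnd K L V e ∧
      toEnd K L V f * toEnd K L V e * toEnd K L V f = toEnd K L V f := by
  obtain ⟨e, f, ht, he, hf⟩ := exists_triple α
  have hee := hsq α e he
  have hff : toEnd K L V f * toEnd K L V f = 0 := by
    have h1 : (rootSystem H).root ((rootSystem H).reflectionPerm α α) =
        - (rootSystem H).root α := by
      rw [RootPairing.root_reflectionPerm, RootPairing.reflection_apply_self]
    refine hsq ((rootSystem H).reflectionPerm α α) f ?_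
    have h2 : (((rootSystem H).reflectionPerm α α).1 : H → K) = ((-α.1 : Weight K H L) : H → K) := by
      funext x
      have h3 := LinearMap.congr_fun h1 x
      exact h3
    rw [h2]
    exact hf
  have hh : toEnd K L V ((coroot α.1 : H) : L) =
      toEnd K L V e * toEnd K L V f - toEnd K L V f * toEnd K L V e := by
    rw [← ht.lie_e_f, LieHom.map_lie, LieRing.of_associative_ring_bracket]
  set E := toEnd K L V e with hE
  set F := toEnd K L V f with hF
  have h4 : ⁅toEnd K L V ((coroot α.1 : H) : L), E⁆ = (2 : K) • E := by
    rw [hE, ← LieHom.map_lie, ht.lie_h_e_nsmul, ← ofNat_smul_eq_nsmul K, map_smul]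
  have h5 : ⁅toEnd K L V ((coroot α.1 : H) : L), F⁆ = - ((2 : K) • F) := by
    rw [hF, ← LieHom.map_lie, ht.lie_h_f_nsmul, ← ofNat_smul_eq_nsmul K, map_neg, map_smul]
  rw [LieRing.of_associative_ring_bracket, hh] at h4 h5
  have h6 : (2 : K) • (E * F * E) = (2 : K) • E := by
    rw [← h4]
    have : (E * F - F * E) * E - E * (E * F - F * E) = E * F * E - F * (E * E) - (E * E) * F + E * F * E := by
      noncomm_ring
    rw [this, hee]
    simp [two_smul]
  have h7 : (2 : K) • (F * E * F) = (2 : K) • F := by
    have h8 : (E * F - F * E) * F - F * (E * F - F * E) = E * (F * F) - F * E * F - F * E * F + (F * F) * E := by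
      noncomm_ring
    rw [h8, hff] at h5
    have h9 : -((2 : K) • (F * E * F)) = -((2 : K) • F) := by
      rw [← h5]
      simp [two_smul]
      abel
    exact neg_injective h9
  exact ⟨e, f, he, ht.e_ne_zero, hh, hee, hff,
    smul_right_injective _ (two_ne_zero) h6, smul_right_injective _ (two_ne_zero) h7⟩

/-- B2 -/
theorem small (hsq : ∀ (α : H.root) (x : L), x ∈ rootSpace H α.1 →
      toEnd K L V x * toEnd K L V x = 0) (i : I) : Small (rootSystem H) (B.w i) := by
  intro α
  obtain ⟨e, f, he, he0, hh, hee, hff, h1, h2⟩ := triple_rel (V := V) hsq α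
  set E := toEnd K L V e with hE
  set F := toEnd K L V f with hF
  have hv : (E * F - F * E) (B.v i) = B.w i (coroot α.1) • B.v i := by
    rw [← hh]; exact B.lie_v i _
  set c := B.w i (coroot α.1) with hc
  have h3 : (E * F - F * E) * (E * F - F * E) * (E * F - F * E) = E * F - F * E := by
    have e1 : (E * F - F * E) * (E * F - F * E) = E * F + F * E := by
      have : (E * F - F * E) * (E * F - F * E) =
          (E * F * E) * F - E * (F * F) * E - F * (E * E) * F + (F * E * F) * E := by
        noncomm_ring
      rw [this, h1, h2, hff, hee]; simp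
    have e2 : (E * F + F * E) * (E * F - F * E) = E * F - F * E := by
      have : (E * F + F * E) * (E * F - F * E) =
          (E * F * E) * F - E * (F * F) * E + F * (E * E) * F - (F * E * F) * E := by
        noncomm_ring
      rw [this, h1, h2, hff, hee]; simp
    rw [e1, e2]
  have h4 : (E * F - F * E) ((E * F - F * E) ((E * F - F * E) (B.v i))) =
      (E * F - F * E) (B.v i) := by
    have := LinearMap.congr_fun h3 (B.v i)
    exact this
  rw [hv, map_smul, hv, smul_smul, map_smul, hv, smul_smul] at h4
  have h5 : c * c * c = c := smul_left_injective K (B.v.ne_zero i) h4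
  have h6 : c * (c - 1) * (c + 1) = 0 := by linear_combination h5
  change c = -1 ∨ c = 0 ∨ c = 1
  rcases mul_eq_zero.mp h6 with h | h
  · rcases mul_eq_zero.mp h with h | h
    · exact Or.inr (Or.inl h)
    · exact Or.inr (Or.inr (sub_eq_zero.mp h))
  · exact Or.inl (eq_neg_of_add_eq_zero_left h)

/-- B3 -/
theorem rank_root (hsq : ∀ (α : H.root) (x : L), x ∈ rootSpace H α.1 →
      toEnd K L V x * toEnd K L V x = 0) (α : H.root) {x : L} (hx : x ∈ rootSpace H α.1)
    (hx0 : x ≠ 0) : open Classical in rk (toEnd K L V x) =
      (Finset.univ.filter (fun i => B.w i (coroot α.1) = 1)).card := by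
  classical
  obtain ⟨e, f, he, he0, hh, hee, hff, h1, h2⟩ := triple_rel (V := V) hsq α
  obtain ⟨c, hc⟩ := mem_line he he0 hx
  have hc0 : c ≠ 0 := by rintro rfl; exact hx0 (by rw [hc, zero_smul])
  rw [hc, map_smul, rk_smul hc0]
  set E := toEnd K L V e with hE
  set F := toEnd K L V f with hF
  have hr : LinearMap.range E = Submodule.span K
      (Set.range (fun i : {i // B.w i (coroot α.1) = 1} => B.v i.1)) := by
    apply le_antisymm
    · rintro _ ⟨u, rfl⟩
      have hu : ⁅((coroot α.1 : H) : L), E u⁆ = (1 : K) • E u := by
        have h3 : (E * F - F * E) * E = E := by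
          rw [sub_mul, h1, mul_assoc F E E, hee, mul_zero, sub_zero]
        have h4 : (toEnd K L V ((coroot α.1 : H) : L)) (E u) = E u := by
          rw [hh]
          exact LinearMap.congr_fun h3 u
        rw [one_smul]
        exact h4
      rw [← B.v.sum_repr (E u)]
      refine Submodule.sum_mem _ fun i _ => ?_
      by_cases hi : B.v.repr (E u) i = 0
      · rw [hi, zero_smul]; exact zero_mem _
      · exact Submodule.smul_mem _ _ (Submodule.subset_span ⟨⟨i, B.coord hu hi⟩, rfl⟩)
    · rw [Submodule.span_le]
      rintro _ ⟨⟨i, hi⟩, rfl⟩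
      have hv : (E * F - F * E) (B.v i) = B.v i := by
        rw [← hh]
        have := B.lie_v i (coroot α.1)
        rw [hi, one_smul] at this
        exact this
      have h3 : E * F * (E * F - F * E) = E * F := by
        have e1 : E * F * (E * F - F * E) = (E * F * E) * F - E * (F * F) * E := by noncomm_ring
        rw [e1, h1, hff]; simp
      have h4 : (E * F) (B.v i) + 0 = (E * F) ((E * F - F * E) (B.v i)) := by
        rw [hv, add_zero]
      have h5 : F * E * (E * F - F * E) = - (F * E) := by
        have e1 : F * E * (E * F - F * E) = F * (E * E) * F - (F * E * F) * E := by noncomm_ring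
        rw [e1, h2, hee]; simp
      have h6 : (F * E) (B.v i) = - (F * E) (B.v i) := by
        conv_lhs => rw [← hv]
        exact LinearMap.congr_fun h5 (B.v i)
      have h7 : (F * E) (B.v i) = 0 := by
        have h8 : (2 : K) • (F * E) (B.v i) = 0 := by
          rw [two_smul]
          nth_rewrite 1 [h6]
          exact neg_add_cancel _
        exact (smul_eq_zero.mp h8).resolve_left two_ne_zero
      have h9 : E (F (B.v i)) = B.v i := by
        have : (E * F) (B.v i) - (F * E) (B.v i) = B.v i := hv
        rw [h7, sub_zero] at this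
        exact this
      exact ⟨F (B.v i), h9⟩
  rw [rk, hr, finrank_span_eq_card, Fintype.card_subtype]
  exact B.v.linearIndependent.comp _ Subtype.val_injective

end TR
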