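import Pool.Agent.Helper95.TR.A3

/-!
Project TR (MP_b8862a_ag), block TR3A: the long root of level two pairs to one with all weights of the top level.
-/

set_option linter.unusedSectionVars false
set_option linter.unusedVariables false

namespace TR

open PF PG

variable {E : Type*} [NormedAddCommGroup E] [InnerProductSpace ℝ E] {Φ X : Finset E} {ℓ : E →ₗ[ℝ] ℝ}

section

variable {p : ℕ} {ν : ℕ → E} {l M : ℝ} (A : A3 Φ X ℓ p ν l M) {t : E} (ht : t ∈ Φ) (ht2 : ℓ t = 2)
  (hmax : ∀ a ∈ Φ, (inner ℝ a a : ℝ) ≤ inner ℝ t t) (hS : ∀ i < p, co t (ν i) = 1)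
include A ht ht2 hmax hS

theorem a_inn {i : ℕ} (hi : i < p) : (inner ℝ (ν i) t : ℝ) = inner ℝ t t / 2 := by
  rw [inn A.cf.rs ht, hS i hi]
  ring

/-- The first root `a`. -/
theorem a_data : M = inner ℝ t t / 4 ∧ ∀ i < p, ∀ j < p, i ≠ j → ν i + ν j - t ∈ Φ := by
  have C := A.cf
  have p3 := A.p3
  obtain ⟨i, hi, j, hj, hij, a, ha, ha1, hab, h0, h1, h2, h3, h4⟩ := A.pair' ht ht2
  have ea : a = ν i + ν j - t := by rw [← hab]; abel
  obtain ⟨k, hk, hki, hkj⟩ : ∃ k < p, k ≠ i ∧ k ≠ j := by
    by_cases e0 : (0 : ℕ) ≠ i ∧ (0 : ℕ) ≠ j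
    · exact ⟨0, by omega, e0.1, e0.2⟩
    · by_cases e1 : (1 : ℕ) ≠ i ∧ (1 : ℕ) ≠ j
      · exact ⟨1, by omega, e1.1, e1.2⟩
      · exact ⟨2, by omega, by omega, by omega⟩
  have haa := C.pos ha
  have h5 := inn C.rs ha (ν i)
  rw [h3] at h5
  have h6 : (inner ℝ (ν i) a : ℝ) = 2 * M + l / 2 - inner ℝ t t / 2 := by
    rw [ea, inner_sub_right, inner_add_right, A.self hi, A.ne hi hj hij, a_inn A ht ht2 hmax hS hi]
    ring
  have h7 : (inner ℝ (ν k) a : ℝ) = 2 * M - inner ℝ t t / 2 := by
    rw [ea, inner_sub_right, inner_add_right, A.ne hk hi hki, A.ne hk hj hkj, a_inn A ht ht2 hmax hS hk]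
    ring
  have h8 := C.nonneg ha (A.mem k hk).1 (by rw [(A.mem k hk).2, ha1]; norm_num)
  have h9 := inn C.rs ha (ν k)
  obtain ⟨m, hm⟩ := C.sat.int a ha (ν k) (A.mem k hk).1
  have hl := A.lpos
  have h10 : co a (ν k) < 1 := by
    by_contra h
    push Not at h
    nlinarith
  have h11 : co a (ν k) = 0 := by
    rw [hm] at h8 h10 ⊢
    have e1 : (0 : ℤ) ≤ m := by exact_mod_cast h8
    have e2 : m < 1 := by exact_mod_cast h10
    have : m = 0 := by omega
    rw [this]
    norm_num
  rw [h11] at h9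
  have hM : M = inner ℝ t t / 4 := by linarith
  refine ⟨hM, ?_⟩
  -- move the indices
  have mv : ∀ i < p, ∀ j < p, i ≠ j → ν i + ν j - t ∈ Φ → ∀ k < p, k ≠ j → ν k + ν j - t ∈ Φ := by
    intro i hi j hj hij h k hk hkj
    by_cases hki : k = i
    · rw [hki]; exact h
    · have hd := A.diff i hi k hk (Ne.symm hki)
      have e1 := C.refl hd h
      have e2 : co (ν i - ν k) (ν i + ν j - t) = 1 := by
        have e3 : (inner ℝ (ν i + ν j - t) (ν i - ν k) : ℝ) = l / 2 := by
          rw [inner_sub_left, inner_add_left, inner_sub_right, inner_sub_right, inner_sub_right, A.self hi,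
            A.ne hi hk (Ne.symm hki), A.ne hj hi (Ne.symm hij), A.ne hj hk (Ne.symm hkj), real_inner_comm (ν i) t,
            real_inner_comm (ν k) t, a_inn A ht ht2 hmax hS hi, a_inn A ht ht2 hmax hS hk]
          ring
        unfold co
        rw [e3, A.diff_self hi hk (Ne.symm hki)]
        field_simp
      rw [e2, one_smul] at e1
      have e4 : ν i + ν j - t - (ν i - ν k) = ν k + ν j - t := by abel
      rwa [e4] at e1
  have sy : ∀ i j, ν i + ν j - t ∈ Φ → ν j + ν i - t ∈ Φ := fun i j h => by rwa [add_comm (ν j) (ν i)]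
  have ha' : ν i + ν j - t ∈ Φ := by rw [← ea]; exact ha
  intro i' hi' j' hj' hij'
  by_cases e : i' = j
  · subst e
    exact sy _ _ (mv i hi i' hj hij ha' j' hj' (Ne.symm hij'))
  · have f1 := mv i hi j hj hij ha' i' hi' e
    have f2 := mv j hj i' hi' (Ne.symm e) (sy _ _ f1) j' hj' (Ne.symm hij')
    exact sy _ _ f2

/-- The norms of the roots `ν i + ν j - t`. -/
theorem a_self (hM : M = inner ℝ t t / 4) {i j : ℕ} (hi : i < p) (hj : j < p) (hij : i ≠ j) :
    (inner ℝ (ν i + ν j - t) (ν i + ν j - t) : ℝ) = l := by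
  rw [inner_sub_left, inner_add_left, inner_sub_right, inner_sub_right, inner_sub_right, inner_add_right,
    inner_add_right, inner_add_right, A.self hi, A.self hj, A.ne hi hj hij, A.ne hj hi (Ne.symm hij),
    real_inner_comm (ν i) t, real_inner_comm (ν j) t, a_inn A ht ht2 hmax hS hi, a_inn A ht ht2 hmax hS hj, hM]
  ring

theorem a_t {i j : ℕ} (hi : i < p) (hj : j < p) : (inner ℝ t (ν i + ν j - t) : ℝ) = 0 := by
  rw [inner_sub_right, inner_add_right, real_inner_comm (ν i) t, real_inner_comm (ν j) t,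
    a_inn A ht ht2 hmax hS hi, a_inn A ht ht2 hmax hS hj]
  ring

theorem a_t' {i j : ℕ} (hi : i < p) (hj : j < p) : (inner ℝ (ν i + ν j - t) t : ℝ) = 0 := by
  rw [real_inner_comm]
  exact a_t A ht ht2 hmax hS hi hj

/-- A third weight is orthogonal to `ν i + ν j - t`. -/
theorem a_third (hM : M = inner ℝ t t / 4) {i j k : ℕ} (hi : i < p) (hj : j < p) (hk : k < p) (hki : k ≠ i) (hkj : k ≠ j) :
    (inner ℝ (ν k) (ν i + ν j - t) : ℝ) = 0 := by
  rw [inner_sub_right, inner_add_right, A.ne hk hi hki, A.ne hk hj hkj, a_inn A ht ht2 hmax hS hk, hM]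
  ring

/-- Neighbours of `t`. -/
theorem nb_one {g : E} (hg : g ∈ Φ) (hne : g ≠ t) (hp : (0 : ℝ) < inner ℝ g t) :
    (inner ℝ g t : ℝ) = inner ℝ t t / 2 ∧ t - g ∈ Φ := by
  have C := A.cf
  have h1 := (inn_pos C.rs ht g).1 hp
  have h2 : co t g = 1 := by
    rcases C.five ht hg with h | h | h | h | h
    · rw [h] at h1; norm_num at h1
    · rw [h] at h1; norm_num at h1
    · rw [h] at h1; norm_num at h1
    · exact h
    · exact absurd (C.eq_of_two ht hg h (hmax g hg)) hne
  have h3 := C.refl ht hg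
  rw [h2, one_smul] at h3
  have h4 := C.neg h3
  rw [neg_sub] at h4
  refine ⟨?_, h4⟩
  rw [inn C.rs ht, h2]
  ring

theorem t_ne_zero : (0 : ℝ) < inner ℝ t t := A.cf.pos ht

/-- A neighbour of level two. -/
theorem nb_two (hM : M = inner ℝ t t / 4) {g : E} (hg : g ∈ Φ) (hne : g ≠ t) (hp : (0 : ℝ) < inner ℝ g t)
    (hg2 : ℓ g = 2) : (∀ i < p, (inner ℝ (ν i) g : ℝ) = inner ℝ t t / 2) ∧ inner ℝ t t = l ∧ p < 5 := by
  have C := A.cf
  have p3 := A.p3
  obtain ⟨h1, h2⟩ := nb_one A ht ht2 hmax hS hg hne hp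
  obtain ⟨hM', hall⟩ := a_data A ht ht2 hmax hS
  have hT := t_ne_zero A ht ht2 hmax hS
  have hl := A.lpos
  have h3 : ∀ c ∈ Φ, ℓ c = 0 → (inner ℝ c t : ℝ) ≠ 0 → ∀ i < p, (inner ℝ (ν i) c : ℝ) = 0 := by
    intro c hc hc0 hct
    rcases A.zero hc hc0 with ⟨i, hi, j, hj, hij, h⟩ | h
    · exfalso
      apply hct
      rw [h, inner_sub_left, a_inn A ht ht2 hmax hS hi, a_inn A ht ht2 hmax hS hj, sub_self]
    · exact h
  have h4 : ∀ i < p, (inner ℝ (ν i) g : ℝ) = inner ℝ t t / 2 := by
    intro i hi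
    have h5 := h3 (t - g) h2 (by rw [map_sub, ht2, hg2, sub_self]) (by
      rw [inner_sub_left, h1]
      intro h
      linarith) i hi
    rw [inner_sub_right, a_inn A ht ht2 hmax hS hi] at h5
    linarith
  have hgg : (inner ℝ g g : ℝ) = inner ℝ t t := by
    have h5 := inn C.rs hg (ν 0)
    rw [h4 0 (by omega)] at h5
    have h6 := hmax g hg
    have h7 := C.pos hg
    rcases A.zero_one hg hg2 (i := 0) (by omega) with h | h
    · rw [h] at h5
      linarith
    · rw [h] at h5
      linarith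
  -- the pairing with a root of level one
  have h5 : ∀ i < p, ∀ j < p, (inner ℝ g (ν i + ν j - t) : ℝ) = inner ℝ t t / 2 := by
    intro i hi j hj
    rw [inner_sub_right, inner_add_right, real_inner_comm (ν i) g, real_inner_comm (ν j) g, h4 i hi, h4 j hj, h1]
    ring
  have a01 := hall 0 (by omega) 1 (by omega) (by norm_num)
  have n01 := a_self A ht ht2 hmax hS hM (i := 0) (j := 1) (by omega) (by omega) (by norm_num)
  have q01 : co (ν 0 + ν 1 - t) g = inner ℝ t t / l := by
    unfold co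
    rw [n01, h5 0 (by omega) 1 (by omega)]
    ring
  have hq : (inner ℝ t t : ℝ) = l ∨ (inner ℝ t t : ℝ) = 2 * l := by
    rcases C.two_len ht hmax a01 with h | h
    · left; rw [← h, n01]
    · right; rw [n01] at h; linarith
  have hzero : ∀ c ∈ Φ, ℓ c = 0 → ∀ i < p, (inner ℝ (ν i) c : ℝ) ≠ 0 → (inner ℝ c t : ℝ) = 0 := by
    intro c hc hc0 i hi hne
    by_contra h
    exact hne (h3 c hc hc0 h i hi)
  have hla : ∀ i < p, ∀ j < p, ℓ (ν i + ν j - t) = 1 := by
    intro i hi j hj
    rw [map_sub, map_add, (A.mem i hi).2, (A.mem j hj).2, ht2]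
    norm_num
  have hq1 : (inner ℝ t t : ℝ) = l := by
    rcases hq with h | h
    · exact h
    exfalso
    have q2 : co (ν 0 + ν 1 - t) g = 2 := by
      rw [q01, h]
      field_simp
    have h6 := C.refl a01 hg
    rw [q2] at h6
    have h7 := hzero _ h6 (by
      rw [map_sub, map_smul, hg2, hla 0 (by omega) 1 (by omega)]
      simp) 2 (by omega) (by
      rw [inner_sub_right, inner_smul_right, h4 2 (by omega),
        a_third A ht ht2 hmax hS hM (i := 0) (j := 1) (by omega) (by omega) (by omega) (by norm_num) (by norm_num)]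
      intro h
      linarith)
    rw [inner_sub_left, inner_smul_left, h1, a_t' A ht ht2 hmax hS (i := 0) (j := 1) (by omega) (by omega), mul_zero,
      sub_zero] at h7
    linarith
  refine ⟨h4, hq1, ?_⟩
  by_contra h5p
  push Not at h5p
  have q1 : co (ν 0 + ν 1 - t) g = 1 := by
    rw [q01, hq1]
    field_simp
  have h6 := C.refl a01 hg
  rw [q1, one_smul] at h6
  have a23 := hall 2 (by omega) 3 (by omega) (by norm_num)
  have n23 := a_self A ht ht2 hmax hS hM (i := 2) (j := 3) (by omega) (by omega) (by norm_num)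
  have o : (inner ℝ (ν 0 + ν 1 - t) (ν 2 + ν 3 - t) : ℝ) = 0 := by
    rw [inner_sub_left, inner_add_left,
      a_third A ht ht2 hmax hS hM (i := 2) (j := 3) (k := 0) (by omega) (by omega) (by omega) (by norm_num) (by norm_num),
      a_third A ht ht2 hmax hS hM (i := 2) (j := 3) (k := 1) (by omega) (by omega) (by omega) (by norm_num) (by norm_num),
      a_t A ht ht2 hmax hS (i := 2) (j := 3) (by omega) (by omega)]
    ring
  have q2 : co (ν 2 + ν 3 - t) (g - (ν 0 + ν 1 - t)) = 1 := by
    unfold co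
    rw [inner_sub_left, o, h5 2 (by omega) 3 (by omega), n23, hq1]
    field_simp
    ring
  have h7 := C.refl a23 h6
  rw [q2, one_smul] at h7
  have h8 := hzero _ h7 (by
    rw [map_sub, map_sub, hg2, hla 0 (by omega) 1 (by omega), hla 2 (by omega) 3 (by omega)]
    norm_num) 4 (by omega) (by
    rw [inner_sub_right, inner_sub_right, h4 4 (by omega),
      a_third A ht ht2 hmax hS hM (i := 0) (j := 1) (k := 4) (by omega) (by omega) (by omega) (by norm_num) (by norm_num),
      a_third A ht ht2 hmax hS hM (i := 2) (j := 3) (k := 4) (by omega) (by omega) (by omega) (by norm_num) (by norm_num)]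
    intro h
    linarith)
  rw [inner_sub_left, inner_sub_left, h1, a_t' A ht ht2 hmax hS (i := 0) (j := 1) (by omega) (by omega),
    a_t' A ht ht2 hmax hS (i := 2) (j := 3) (by omega) (by omega)] at h8
  linarith

/-- There is a neighbour of level two. -/
theorem ex_two : ∃ g ∈ Φ, g ≠ t ∧ (0 : ℝ) < inner ℝ g t ∧ ℓ g = 2 := by
  have C := A.cf
  have p3 := A.p3
  obtain ⟨hM, hall⟩ := a_data A ht ht2 hmax hS
  have hT := t_ne_zero A ht ht2 hmax hS
  by_contra hcon
  push Not at hcon
  have hla : ∀ i < p, ∀ j < p, ℓ (ν i + ν j - t) = 1 := by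
    intro i hi j hj
    rw [map_sub, map_add, (A.mem i hi).2, (A.mem j hj).2, ht2]
    norm_num
  have h1 : ∀ g ∈ Φ, g ≠ t → (0 : ℝ) < inner ℝ g t → ℓ g = 1 := by
    intro g hg hne hp
    obtain ⟨h1, h2⟩ := nb_one A ht ht2 hmax hS hg hne hp
    have h3 := hcon g hg hne hp
    have h4 := hcon (t - g) h2 (by
      intro h
      have h5 : g = 0 := by simpa using h
      exact C.rs.ne_zero g hg h5) (by
      rw [inner_sub_left, h1]
      linarith)
    have h5 := A.max2 g hg
    have h6 := A.max2 _ h2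
    rw [map_sub, ht2] at h4 h6
    rcases C.levels hg with h | h | h | h | h | h | h
    · rw [h] at h6; norm_num at h6
    · rw [h] at h6; norm_num at h6
    · rw [h] at h6; norm_num at h6
    · rw [h] at h4; norm_num at h4
    · exact h
    · exact absurd h h3
    · rw [h] at h5; norm_num at h5
  have a01 := hall 0 (by omega) 1 (by omega) (by norm_num)
  have h2 : ∀ g ∈ Φ, (0 : ℝ) < inner ℝ g t → (inner ℝ g (ν 0 + ν 1 - t) : ℝ) = 0 := by
    intro g hg hp
    by_cases hne : g = t
    · rw [hne]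
      exact a_t A ht ht2 hmax hS (i := 0) (j := 1) (by omega) (by omega)
    · have h3 := C.refl a01 hg
      have h4 : (inner ℝ (g - co (ν 0 + ν 1 - t) g • (ν 0 + ν 1 - t)) t : ℝ) = inner ℝ g t := by
        rw [inner_sub_left, inner_smul_left, real_inner_comm t (ν 0 + ν 1 - t),
          a_t A ht ht2 hmax hS (i := 0) (j := 1) (by omega) (by omega)]
        simp
      have h5 : g - co (ν 0 + ν 1 - t) g • (ν 0 + ν 1 - t) ≠ t := by
        intro h
        rw [h] at h4
        obtain ⟨h6, -⟩ := nb_one A ht ht2 hmax hS hg hne hp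
        linarith
      have h6 := h1 _ h3 h5 (by rw [h4]; exact hp)
      rw [map_sub, map_smul, h1 g hg hne hp, hla 0 (by omega) 1 (by omega)] at h6
      have h7 : co (ν 0 + ν 1 - t) g = 0 := by
        simp at h6
        exact h6
      exact (inn_eq_zero C.rs a01 g).2 h7
  obtain ⟨g, hg, h3, h4⟩ := not_all_orth C.rs ht a01
  rcases lt_or_gt_of_ne h3 with h5 | h5
  · have h6 := h2 (-g) (C.neg hg) (by rw [inner_neg_left]; linarith)
    rw [inner_neg_left] at h6
    apply h4
    linarith
  · exact h4 (h2 g hg h5)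

/-- **TR3A.** -/
theorem tr3A (hprime : p.Prime) : p = 3 ∧ Final Φ X ℓ p ν 3 7 := by
  classical
  have C := A.cf
  have p3 := A.p3
  obtain ⟨hM, hall⟩ := a_data A ht ht2 hmax hS
  have hT := t_ne_zero A ht ht2 hmax hS
  obtain ⟨g, hg, hgne, hgp, hg2⟩ := ex_two A ht ht2 hmax hS
  obtain ⟨h4, htl, hp5⟩ := nb_two A ht ht2 hmax hS hM hg hgne hgp hg2
  have hp3 : p = 3 := by
    have h1 : p = 3 ∨ p = 4 := by omega
    rcases h1 with h | h
    · exact h
    · rw [h] at hprime
      exact absurd hprime (by decide)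
  subst hp3
  obtain ⟨hgt, -⟩ := nb_one A ht ht2 hmax hS hg hgne hgp
  have hl := A.lpos
  have hin : ∀ i < 3, ∀ j < 3, (inner ℝ (ν i) (ν j) : ℝ) = if i = j then 3 * l / 4 else l / 4 := by
    intro i hi j hj
    rw [A.gram i hi j hj, hM, htl]
    split_ifs <;> ring
  have hit : ∀ i < 3, (inner ℝ (ν i) t : ℝ) = l / 2 := fun i hi => by rw [a_inn A ht ht2 hmax hS hi, htl]
  have hig : ∀ i < 3, (inner ℝ (ν i) g : ℝ) = l / 2 := fun i hi => by rw [h4 i hi, htl]
  have ht1 : ∀ i < 3, t - ν i ∈ X ∧ ℓ (t - ν i) = 1 / 2 := by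
    intro i hi
    constructor
    · have h1 := C.add_mem ht (C.sat.neg _ (A.mem i hi).1) (by rw [PF.co_neg_right, hS i hi]; norm_num)
      rwa [neg_add_eq_sub] at h1
    · rw [map_sub, ht2, (A.mem i hi).2]; norm_num
  have hg1 : ∀ i < 3, g - ν i ∈ X ∧ ℓ (g - ν i) = 1 / 2 := by
    intro i hi
    constructor
    · have h1 := C.add_mem hg (C.sat.neg _ (A.mem i hi).1) (by
        rw [PF.co_neg_right]
        have : 0 < co g (ν i) := (inn_pos C.rs hg _).1 (by rw [hig i hi]; linarith)
        linarith)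
      rwa [neg_add_eq_sub] at h1
    · rw [map_sub, hg2, (A.mem i hi).2]; norm_num
  -- the seventh weight
  have a12 := hall 1 (by norm_num) 2 (by norm_num) (by norm_num)
  have n12 := a_self A ht ht2 hmax hS hM (i := 1) (j := 2) (by norm_num) (by norm_num) (by norm_num)
  have hf : g - (ν 1 + ν 2 - t) ∈ Φ := by
    have h1 := C.refl a12 hg
    have h2 : co (ν 1 + ν 2 - t) g = 1 := by
      unfold co
      rw [n12, inner_sub_right, inner_add_right, real_inner_comm (ν 1) g, real_inner_comm (ν 2) g,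
        hig 1 (by norm_num), hig 2 (by norm_num), hgt, htl]
      field_simp
      ring
    rwa [h2, one_smul] at h1
  obtain ⟨w, hw⟩ : ∃ w, w = ν 0 - (g - (ν 1 + ν 2 - t)) := ⟨_, rfl⟩
  have hwX : w ∈ X := by
    rw [hw]
    refine C.sub_mem hf (A.mem 0 (by norm_num)).1 ((inn_pos C.rs hf _).1 ?_)
    rw [inner_sub_right, hig 0 (by norm_num),
      a_third A ht ht2 hmax hS hM (i := 1) (j := 2) (k := 0) (by norm_num) (by norm_num) (by norm_num) (by norm_num) (by norm_num)]
    linarith
  have hwl : ℓ w = 1 / 2 := by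
    rw [hw, map_sub, map_sub, map_sub, map_add, hg2, ht2, (A.mem 0 (by norm_num)).2, (A.mem 1 (by norm_num)).2,
      (A.mem 2 (by norm_num)).2]
    norm_num
  have hwi : ∀ i < 3, (inner ℝ w (ν i) : ℝ) = l / 4 := by
    intro i hi
    have e : w = ν 0 + ν 1 + ν 2 - t - g := by rw [hw]; abel
    rw [e, inner_sub_left, inner_sub_left, inner_add_left, inner_add_left, hin 0 (by norm_num) i hi,
      hin 1 (by norm_num) i hi, hin 2 (by norm_num) i hi, real_inner_comm (ν i) t, real_inner_comm (ν i) g, hit i hi, hig i hi]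
    have h3 : i = 0 ∨ i = 1 ∨ i = 2 := by omega
    rcases h3 with rfl | rfl | rfl <;> simp <;> ring
  have hti : ∀ i < 3, ∀ j < 3, (inner ℝ (t - ν i) (ν j) : ℝ) = if i = j then -(l / 4) else l / 4 := by
    intro i hi j hj
    rw [inner_sub_left, real_inner_comm (ν j) t, hit j hj, hin i hi j hj]
    split_ifs <;> ring
  have hgi : ∀ i < 3, ∀ j < 3, (inner ℝ (g - ν i) (ν j) : ℝ) = if i = j then -(l / 4) else l / 4 := by
    intro i hi j hj
    rw [inner_sub_left, real_inner_comm (ν j) g, hig j hj, hin i hi j hj]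
    split_ifs <;> ring
  refine ⟨rfl, by norm_num, l, t, Finset.range 3,
    insert w ((Finset.range 3).image (fun i => t - ν i) ∪ (Finset.range 3).image (fun i => g - ν i)),
    hl, ht, ht2, htl, ?_, hin, ?_, by simp, ?_, ?_, ?_⟩
  · intro a ha
    rcases C.two_len ht hmax ha with h | h
    · left; rw [h, htl]
    · right; rw [h, htl]
  · intro i hi
    exact Finset.mem_range.1 hi
  · intro i hi
    rw [if_pos (Finset.mem_range.2 hi)]
    exact hit i hi
  · intro z hz
    rw [Finset.mem_insert, Finset.mem_union, Finset.mem_image, Finset.mem_image] at hz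
    rcases hz with rfl | ⟨i, hi, rfl⟩ | ⟨i, hi, rfl⟩
    · exact ⟨hwX, hwl, fun j hj => Or.inl (hwi j hj)⟩
    · have hi := Finset.mem_range.1 hi
      refine ⟨(ht1 i hi).1, (ht1 i hi).2, fun j hj => ?_⟩
      rw [hti i hi j hj]
      split_ifs
      · exact Or.inr rfl
      · exact Or.inl rfl
    · have hi := Finset.mem_range.1 hi
      refine ⟨(hg1 i hi).1, (hg1 i hi).2, fun j hj => ?_⟩
      rw [hgi i hi j hj]
      split_ifs
      · exact Or.inr rfl
      · exact Or.inl rfl
  · rw [Finset.card_insert_of_notMem, Finset.card_union_of_disjoint, Finset.card_image_of_injOn, Finset.card_image_of_injOn,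
      Finset.card_range]
    · intro i hi j hj hij
      have hi := Finset.mem_range.1 (Finset.mem_coe.1 hi)
      have hj := Finset.mem_range.1 (Finset.mem_coe.1 hj)
      exact A.inj i hi j hj (sub_right_injective hij)
    · intro i hi j hj hij
      have hi := Finset.mem_range.1 (Finset.mem_coe.1 hi)
      have hj := Finset.mem_range.1 (Finset.mem_coe.1 hj)
      exact A.inj i hi j hj (sub_right_injective hij)
    · rw [Finset.disjoint_left]
      intro z hz hz'
      rw [Finset.mem_image] at hz hz'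
      obtain ⟨i, hi, rfl⟩ := hz
      obtain ⟨j, hj, hji⟩ := hz'
      have hi := Finset.mem_range.1 hi
      have hj := Finset.mem_range.1 hj
      have e1 : (inner ℝ (g - ν j) t : ℝ) = inner ℝ (t - ν i) t := by rw [hji]
      rw [inner_sub_left, inner_sub_left, hit i hi, hit j hj, hgt, htl] at e1
      linarith
    · rw [Finset.mem_union, Finset.mem_image, Finset.mem_image]
      rintro (⟨i, hi, h⟩ | ⟨i, hi, h⟩)
      · have hi := Finset.mem_range.1 hi
        have e1 := hti i hi i hi
        rw [h, hwi i hi, if_pos rfl] at e1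
        linarith
      · have hi := Finset.mem_range.1 hi
        have e1 := hgi i hi i hi
        rw [h, hwi i hi, if_pos rfl] at e1
        linarith

end

end TR
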