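import Pool.Agent.Helper95.TR.A3

/-!
Project TR (MP_b8862a_ag), block TR4: the frame identity and the count of the weights of level `1/2`.
-/

set_option linter.unusedSectionVars false
set_option linter.unusedVariables false

namespace TR

open PF PG

variable {E : Type*} [NormedAddCommGroup E] [InnerProductSpace ℝ E] {Φ X : Finset E} {ℓ : E →ₗ[ℝ] ℝ}

/-- The invariant form of the weights with multiplicities. -/
noncomputable def B1 (X : Finset E) (m : E → ℝ) (x y : E) : ℝ := ∑ μ ∈ X, m μ * (inner ℝ μ x * inner ℝ μ y)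

section

variable (m : E → ℝ)

theorem B1_comm (x y : E) : B1 X m x y = B1 X m y x := by
  unfold B1
  refine Finset.sum_congr rfl fun μ _ => ?_
  ring

theorem B1_add (x y z : E) : B1 X m (x + y) z = B1 X m x z + B1 X m y z := by
  unfold B1
  rw [← Finset.sum_add_distrib]
  refine Finset.sum_congr rfl fun μ _ => ?_
  rw [inner_add_right]
  ring

theorem B1_smul (c : ℝ) (x z : E) : B1 X m (c • x) z = c * B1 X m x z := by
  unfold B1
  rw [Finset.mul_sum]
  refine Finset.sum_congr rfl fun μ _ => ?_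
  rw [inner_smul_right]
  ring

theorem B1_refl (h : RS Φ) (hX : Sat Φ X) (hW : ∀ a ∈ Φ, ∀ x ∈ X, m (x - co a x • a) = m x) {a : E} (ha : a ∈ Φ) (x y : E) :
    B1 X m (x - co a x • a) (y - co a y • a) = B1 X m x y := by
  have hinv : ∀ z : E, (z - co a z • a) - co a (z - co a z • a) • a = z := by
    intro z
    have h1 : co a (z - co a z • a) = -co a z := by
      rw [co_sub]
      have h2 : co a (co a z • a) = 2 * co a z := by
        unfold co
        rw [inner_smul_left]
        have := h.inner_pos ha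
        simp
        field_simp
      rw [h2]
      ring
    rw [h1]
    module
  unfold B1
  refine Finset.sum_bij' (fun μ _ => μ - co a μ • a) (fun μ _ => μ - co a μ • a) ?_ ?_ ?_ ?_ ?_
  · intro μ hμ
    exact sat_refl h hX ha hμ
  · intro μ hμ
    exact sat_refl h hX ha hμ
  · intro μ hμ
    exact hinv μ
  · intro μ hμ
    exact hinv μ
  · intro μ hμ
    rw [hW a ha μ hμ]
    have e : ∀ z : E, (inner ℝ (μ - co a μ • a) z : ℝ) = inner ℝ μ (z - co a z • a) := by
      intro z
      have h2 := h.inner_pos ha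
      rw [inner_sub_left, inner_sub_right, inner_smul_left, inner_smul_right]
      unfold co
      rw [real_inner_comm a z]
      simp
      field_simp
    rw [e x, e y]

/-- On a root the form is a multiple of the inner product. -/
theorem B1_root (h : RS Φ) (hX : Sat Φ X) (hW : ∀ a ∈ Φ, ∀ x ∈ X, m (x - co a x • a) = m x) {a : E} (ha : a ∈ Φ) (y : E) :
    B1 X m a y = B1 X m a a / inner ℝ a a * inner ℝ a y := by
  have h1 := B1_refl m h hX hW ha a y
  have h2 := h.inner_pos ha
  have h3 : a - co a a • a = (-1 : ℝ) • a := by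
    rw [h.co_self ha]
    module
  rw [h3, B1_smul, sub_eq_add_neg, ← neg_smul, B1_comm m a (y + -co a y • a), B1_add, B1_smul, B1_comm m y a] at h1
  have h4 : co a y * inner ℝ a a = 2 * (inner ℝ a y : ℝ) := by
    rw [co_mul (h.ne_zero a ha), real_inner_comm]
  have h5 : 2 * B1 X m a y = co a y * B1 X m a a := by linarith
  field_simp
  have h6 : co a y = 2 * inner ℝ a y / inner ℝ a a := by
    field_simp
    linarith
  rw [h6] at h5
  field_simp at h5
  linarith

/-- (FR) The frame identity. -/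
theorem frame (h : RS Φ) (hX : Sat Φ X) (hW : ∀ a ∈ Φ, ∀ x ∈ X, m (x - co a x • a) = m x) :
    ∃ C : ℝ, ∀ x ∈ Submodule.span ℝ (Φ : Set E), ∀ y, B1 X m x y = C * inner ℝ x y := by
  classical
  obtain ⟨a0, ha0⟩ := h.nonempty
  refine ⟨B1 X m a0 a0 / inner ℝ a0 a0, ?_⟩
  have hc : ∀ a ∈ Φ, B1 X m a a / inner ℝ a a = B1 X m a0 a0 / (inner ℝ a0 a0 : ℝ) := by
    have h1 : Φ.filter (fun a => B1 X m a a / inner ℝ a a = B1 X m a0 a0 / (inner ℝ a0 a0 : ℝ)) = Φ := by
      refine h.irr _ (Finset.filter_subset _ _) ⟨a0, Finset.mem_filter.2 ⟨ha0, rfl⟩⟩ ?_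
      intro a ha b hb hbS
      obtain ⟨ha, hae⟩ := Finset.mem_filter.1 ha
      by_contra hab
      apply hbS
      refine Finset.mem_filter.2 ⟨hb, ?_⟩
      rw [← hae]
      have h2 := B1_root m h hX hW ha b
      have h3 := B1_root m h hX hW hb a
      rw [B1_comm m b a, real_inner_comm a b] at h3
      rw [h2] at h3
      exact (mul_right_cancel₀ hab h3).symm
    intro a ha
    rw [← h1] at ha
    exact (Finset.mem_filter.1 ha).2
  intro x hx y
  induction hx using Submodule.span_induction with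
  | mem a ha =>
    rw [B1_root m h hX hW ha y, hc a ha]
  | zero =>
    have h1 := B1_smul (X := X) m 0 (0 : E) y
    rw [zero_smul, zero_mul] at h1
    rw [h1, inner_zero_left, mul_zero]
  | add a b _ _ h1 h2 => rw [B1_add, h1, h2, inner_add_left]; ring
  | smul c a _ h1 =>
    rw [B1_smul, h1, inner_smul_left]
    simp
    ring

end

/-- Weights are in the span of the roots. -/
theorem sat_span (hX : Sat Φ X) {x : E} (hx : x ∈ X) : x ∈ Submodule.span ℝ (Φ : Set E) := by
  have h1 := hX.coset x hx (-x) (hX.neg x hx)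
  have h2 : ∀ z ∈ AddSubgroup.closure (Φ : Set E), z ∈ Submodule.span ℝ (Φ : Set E) := by
    intro z hz
    induction hz using AddSubgroup.closure_induction with
    | mem z hz => exact Submodule.subset_span hz
    | zero => exact Submodule.zero_mem _
    | add z w _ _ h3 h4 => exact Submodule.add_mem _ h3 h4
    | neg z _ h3 => exact Submodule.neg_mem _ h3
  have h3 := h2 _ h1
  have h4 : x = (1 / 2 : ℝ) • (x - -x) := by
    module
  rw [h4]
  exact Submodule.smul_mem _ _ h3

section

variable {p : ℕ} {ν : ℕ → E} (C : Cf Φ X ℓ)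
include C

open Classical in
/-- The sum of an even function over the weights. -/
theorem sum_even (f : E → ℝ) (hf : ∀ x ∈ X, f (-x) = f x) :
    ∑ x ∈ X, f x = 2 * (∑ x ∈ X.filter (fun x => ℓ x = 3 / 2), f x + ∑ x ∈ X.filter (fun x => ℓ x = 1 / 2), f x) := by
  have h1 : ∑ x ∈ X.filter (fun x => ¬ 0 < ℓ x), f x = ∑ x ∈ X.filter (fun x => 0 < ℓ x), f x := by
    refine Finset.sum_bij' (fun x _ => -x) (fun x _ => -x) ?_ ?_ ?_ ?_ ?_
    · intro x hx
      rw [Finset.mem_filter] at hx ⊢
      refine ⟨C.sat.neg x hx.1, ?_⟩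
      rw [map_neg]
      rcases C.lev x hx.1 with h | h | h | h
      · exact absurd (by rw [h]; norm_num) hx.2
      · exact absurd (by rw [h]; norm_num) hx.2
      · rw [h]; norm_num
      · rw [h]; norm_num
    · intro x hx
      rw [Finset.mem_filter] at hx ⊢
      refine ⟨C.sat.neg x hx.1, ?_⟩
      rw [map_neg]
      linarith [hx.2]
    · intro x hx; simp
    · intro x hx; simp
    · intro x hx
      exact (hf x (Finset.mem_filter.1 hx).1).symm
  have h2 : X.filter (fun x => 0 < ℓ x) = X.filter (fun x => ℓ x = 3 / 2) ∪ X.filter (fun x => ℓ x = 1 / 2) := by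
    ext x
    simp only [Finset.mem_filter, Finset.mem_union]
    constructor
    · rintro ⟨hx, h0⟩
      rcases C.lev x hx with h | h | h | h
      · exact Or.inl ⟨hx, h⟩
      · exact Or.inr ⟨hx, h⟩
      · rw [h] at h0; norm_num at h0
      · rw [h] at h0; norm_num at h0
    · rintro (⟨hx, h⟩ | ⟨hx, h⟩) <;> exact ⟨hx, by rw [h]; norm_num⟩
  have h3 : Disjoint (X.filter (fun x => ℓ x = 3 / 2)) (X.filter (fun x => ℓ x = 1 / 2)) := by
    rw [Finset.disjoint_left]
    intro x hx hx'
    rw [Finset.mem_filter] at hx hx'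
    have := hx.2.symm.trans hx'.2
    norm_num at this
  rw [← Finset.sum_filter_add_sum_filter_not X (fun x => 0 < ℓ x), h1, h2, Finset.sum_union h3]
  ring

open Classical in
theorem sum_top (top : ∀ x, (x ∈ X ∧ ℓ x = 3 / 2) ↔ ∃ i < p, x = ν i) (inj : ∀ i < p, ∀ j < p, ν i = ν j → i = j)
    (f : E → ℝ) : ∑ x ∈ X.filter (fun x => ℓ x = 3 / 2), f x = ∑ i ∈ Finset.range p, f (ν i) := by
  have h1 : X.filter (fun x => ℓ x = 3 / 2) = (Finset.range p).image ν := by
    ext x
    rw [Finset.mem_filter, top x, Finset.mem_image]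
    constructor
    · rintro ⟨i, hi, rfl⟩
      exact ⟨i, Finset.mem_range.2 hi, rfl⟩
    · rintro ⟨i, hi, rfl⟩
      exact ⟨i, Finset.mem_range.1 hi, rfl⟩
  rw [h1, Finset.sum_image]
  intro i hi j hj hij
  exact inj i (Finset.mem_range.1 (Finset.mem_coe.1 hi)) j (Finset.mem_range.1 (Finset.mem_coe.1 hj)) hij

open Classical in
/-- **TR4.** The number of the weights of level `1/2` with multiplicities. -/
theorem count {k h : ℕ} (F : Final Φ X ℓ p ν k h) (hp : 0 < p)
    (top : ∀ x, (x ∈ X ∧ ℓ x = 3 / 2) ↔ ∃ i < p, x = ν i) (inj : ∀ i < p, ∀ j < p, ν i = ν j → i = j)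
    (low : ∀ x ∈ X, ℓ x = 1 / 2 → ∃ i < p, ∃ b ∈ Φ, ℓ b = 1 ∧ x = ν i - b)
    (m : E → ℝ) (hm : ∀ x ∈ X, 1 ≤ m x) (hW : ∀ a ∈ Φ, ∀ x ∈ X, m (x - co a x • a) = m x)
    (hneg : ∀ x ∈ X, m (-x) = m x) (hone : ∀ i < p, m (ν i) = 1) :
    ∑ x ∈ X.filter (fun x => ℓ x = 1 / 2), m x = h := by
  obtain ⟨hnum, l, t, S, Z, hl, ht, ht2, htl, hlen, hin, hSp, hSk, hSt, hZ, hZh⟩ := F
  have hmem : ∀ i < p, ν i ∈ X ∧ ℓ (ν i) = 3 / 2 := fun i hi => (top _).2 ⟨i, hi, rfl⟩
  obtain ⟨K, hK⟩ := frame m C.rs C.sat hW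
  have heven : ∀ y : E, ∀ x ∈ X, m (-x) * (inner ℝ (-x) y * inner ℝ (-x) y) = m x * (inner ℝ x y * (inner ℝ x y : ℝ)) := by
    intro y x hx
    rw [hneg x hx, inner_neg_left]
    ring
  -- the pairing with `t`
  have hKl : K ≤ k * l := by
    have h1 := hK t (Submodule.subset_span ht) t
    unfold B1 at h1
    rw [sum_even C (fun x => m x * (inner ℝ x t * inner ℝ x t)) (heven t), sum_top C top inj] at h1
    have h2 : ∑ i ∈ Finset.range p, m (ν i) * (inner ℝ (ν i) t * inner ℝ (ν i) t) = k * (l ^ 2 / 4 : ℝ) := by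
      have e : ∀ i ∈ Finset.range p, m (ν i) * (inner ℝ (ν i) t * inner ℝ (ν i) t) =
          if i ∈ S then (l ^ 2 / 4 : ℝ) else 0 := by
        intro i hi
        have hi := Finset.mem_range.1 hi
        rw [hone i hi, hSt i hi]
        split_ifs <;> ring
      rw [Finset.sum_congr rfl e, ← Finset.sum_filter]
      have e2 : (Finset.range p).filter (fun i => i ∈ S) = S := by
        ext i
        rw [Finset.mem_filter, Finset.mem_range]
        exact ⟨fun h => h.2, fun h => ⟨hSp i h, h⟩⟩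
      rw [e2, Finset.sum_const, hSk, nsmul_eq_mul]
    have h3 : ∑ x ∈ X.filter (fun x => ℓ x = 1 / 2), m x * (inner ℝ x t * inner ℝ x t) ≤ k * (l ^ 2 / 4 : ℝ) := by
      rw [← Finset.sum_filter_add_sum_filter_not (X.filter (fun x => ℓ x = 1 / 2)) (fun x => (inner ℝ x t : ℝ) = 0)]
      have e1 : ∑ x ∈ (X.filter (fun x => ℓ x = 1 / 2)).filter (fun x => (inner ℝ x t : ℝ) = 0),
          m x * (inner ℝ x t * inner ℝ x t) = 0 := by
        refine Finset.sum_eq_zero fun x hx => ?_
        rw [(Finset.mem_filter.1 hx).2]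
        ring
      rw [e1, zero_add]
      have key : ∀ x ∈ (X.filter (fun x => ℓ x = 1 / 2)).filter (fun x => ¬ (inner ℝ x t : ℝ) = 0),
          ∃ j ∈ S, x = t - ν j ∧ m x = 1 ∧ (inner ℝ x t : ℝ) = l / 2 := by
        intro x hx
        obtain ⟨hx, hxt⟩ := Finset.mem_filter.1 hx
        obtain ⟨hx, hxl⟩ := Finset.mem_filter.1 hx
        have h4 : co t x = 1 := by
          rcases C.zero_one ht hx ht2 (by rw [hxl]) with h | h
          · exact absurd ((inn_eq_zero C.rs ht x).2 h) hxt
          · exact h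
        have h5 := C.sub_mem ht hx (by rw [h4]; norm_num)
        have h6 := C.sat.neg _ h5
        obtain ⟨j, hj, hj1⟩ := (top _).1 ⟨h6, by rw [map_neg, map_sub, hxl, ht2]; norm_num⟩
        have h7 : x = t - ν j := by
          rw [← hj1]
          abel
        have h8 : (inner ℝ x t : ℝ) = l / 2 := by
          rw [inn C.rs ht x, h4, htl]
          ring
        have h9 : (inner ℝ (ν j) t : ℝ) = l / 2 := by
          rw [h7, inner_sub_left, htl] at h8
          linarith
        have h10 : j ∈ S := by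
          by_contra hjS
          rw [hSt j hj, if_neg hjS] at h9
          linarith
        refine ⟨j, h10, h7, ?_, h8⟩
        have h11 : co t (ν j) = 1 := by
          unfold co
          rw [h9, htl]
          field_simp
        have h12 := hW t ht (ν j) (hmem j hj).1
        rw [h11, one_smul, hone j hj] at h12
        have h13 := C.reflX ht (hmem j hj).1
        rw [h11, one_smul] at h13
        have h14 := hneg _ h13
        rw [neg_sub] at h14
        rw [h7, h14, h12]
      have hsub : (X.filter (fun x => ℓ x = 1 / 2)).filter (fun x => ¬ (inner ℝ x t : ℝ) = 0) ⊆ S.image (fun j => t - ν j) := by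
        intro x hx
        obtain ⟨j, hj, hj1, -⟩ := key x hx
        exact Finset.mem_image.2 ⟨j, hj, hj1.symm⟩
      have e2 : ∑ x ∈ (X.filter (fun x => ℓ x = 1 / 2)).filter (fun x => ¬ (inner ℝ x t : ℝ) = 0),
          m x * (inner ℝ x t * inner ℝ x t) = ∑ x ∈ (X.filter (fun x => ℓ x = 1 / 2)).filter (fun x => ¬ (inner ℝ x t : ℝ) = 0),
          (l ^ 2 / 4 : ℝ) := by
        refine Finset.sum_congr rfl fun x hx => ?_
        obtain ⟨j, hj, -, h5, h6⟩ := key x hx
        rw [h5, h6]
        ring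
      rw [e2, Finset.sum_const, nsmul_eq_mul]
      have h4 := (Finset.card_le_card hsub).trans Finset.card_image_le
      rw [hSk] at h4
      have h5 : (((X.filter (fun x => ℓ x = 1 / 2)).filter (fun x => ¬ (inner ℝ x t : ℝ) = 0)).card : ℝ) ≤ k := by
        exact_mod_cast h4
      have h6 : (0 : ℝ) ≤ l ^ 2 / 4 := by positivity
      exact mul_le_mul_of_nonneg_right h5 h6
    rw [h2, htl] at h1
    have h4 : K * l ≤ (k * l) * l := by
      rw [← h1]
      linarith
    exact le_of_mul_le_mul_right h4 hl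
  -- the pairing with `ν i`
  have hZX : Z ⊆ X.filter (fun x => ℓ x = 1 / 2) := fun z hz => Finset.mem_filter.2 ⟨(hZ z hz).1, (hZ z hz).2.1⟩
  have main : ∀ i < p, ∑ x ∈ Z, (m x - 1) * (l ^ 2 / 16) +
      ∑ x ∈ X.filter (fun x => ℓ x = 1 / 2) \ Z, m x * (inner ℝ x (ν i) * inner ℝ x (ν i)) ≤ (0 : ℝ) := by
    intro i hi
    have h1 := hK (ν i) (sat_span C.sat (hmem i hi).1) (ν i)
    unfold B1 at h1
    rw [sum_even C (fun x => m x * (inner ℝ x (ν i) * inner ℝ x (ν i))) (heven (ν i)), sum_top C top inj] at h1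
    have h2 : ∑ j ∈ Finset.range p, m (ν j) * (inner ℝ (ν j) (ν i) * inner ℝ (ν j) (ν i)) =
        (9 + (p - 1 : ℝ)) * (l ^ 2 / 16) := by
      have e : ∀ j ∈ Finset.range p, m (ν j) * (inner ℝ (ν j) (ν i) * inner ℝ (ν j) (ν i)) =
          (l ^ 2 / 16 : ℝ) + if j = i then (8 * (l ^ 2 / 16) : ℝ) else 0 := by
        intro j hj
        have hj := Finset.mem_range.1 hj
        rw [hone j hj, hin j hj i hi]
        split_ifs <;> ring
      rw [Finset.sum_congr rfl e, Finset.sum_add_distrib, Finset.sum_const, Finset.card_range, nsmul_eq_mul,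
        Finset.sum_ite_eq' (Finset.range p) i, if_pos (Finset.mem_range.2 hi)]
      ring
    have h3 : ∑ x ∈ X.filter (fun x => ℓ x = 1 / 2), m x * (inner ℝ x (ν i) * inner ℝ x (ν i)) =
        ∑ x ∈ X.filter (fun x => ℓ x = 1 / 2) \ Z, m x * (inner ℝ x (ν i) * inner ℝ x (ν i)) +
        ∑ x ∈ Z, m x * (inner ℝ x (ν i) * (inner ℝ x (ν i) : ℝ)) := (Finset.sum_sdiff hZX).symm
    have h4 : ∑ x ∈ Z, m x * (inner ℝ x (ν i) * (inner ℝ x (ν i) : ℝ)) = ∑ x ∈ Z, (m x - 1) * (l ^ 2 / 16) + h * (l ^ 2 / 16) := by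
      have e : ∀ x ∈ Z, m x * (inner ℝ x (ν i) * (inner ℝ x (ν i) : ℝ)) = (m x - 1) * (l ^ 2 / 16) + l ^ 2 / 16 := by
        intro x hx
        rcases (hZ x hx).2.2 i hi with h | h <;> rw [h] <;> ring
      rw [Finset.sum_congr rfl e, Finset.sum_add_distrib, Finset.sum_const, hZh, nsmul_eq_mul]
    rw [h2, h3, h4, hin i hi i hi, if_pos rfl] at h1
    have h5 : K * (3 * l / 4) ≤ (k * l) * (3 * l / 4) := by
      refine mul_le_mul_of_nonneg_right hKl ?_
      positivity
    have h6 : (9 : ℝ) + (p - 1) + h = 6 * k := by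
      have : ((9 + (p - 1) + h : ℕ) : ℝ) = ((6 * k : ℕ) : ℝ) := by rw [hnum]
      push_cast [Nat.cast_sub (by omega : 1 ≤ p)] at this
      linarith
    have h7 : (h : ℝ) = 6 * k - 9 - (p - 1) := by linarith
    rw [h7] at h1
    nlinarith
  have hm1 : ∀ x ∈ Z, m x = 1 := by
    have h1 := main 0 hp
    have h2 : (0 : ℝ) ≤ ∑ x ∈ X.filter (fun x => ℓ x = 1 / 2) \ Z, m x * (inner ℝ x (ν 0) * inner ℝ x (ν 0)) := by
      refine Finset.sum_nonneg fun x hx => mul_nonneg ?_ (mul_self_nonneg _)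
      have := hm x (Finset.mem_filter.1 (Finset.mem_sdiff.1 hx).1).1
      linarith
    have h3 : ∀ x ∈ Z, (0 : ℝ) ≤ (m x - 1) * (l ^ 2 / 16) := by
      intro x hx
      have := hm x (hZ x hx).1
      have : 0 ≤ m x - 1 := by linarith
      positivity
    have h4 : ∑ x ∈ Z, (m x - 1) * (l ^ 2 / 16) = (0 : ℝ) := le_antisymm (by linarith) (Finset.sum_nonneg h3)
    intro x hx
    have h5 := (Finset.sum_eq_zero_iff_of_nonneg h3).1 h4 x hx
    have h6 : (l ^ 2 / 16 : ℝ) ≠ 0 := by positivity
    rcases mul_eq_zero.1 h5 with h | h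
    · linarith
    · exact absurd h h6
  have horth : ∀ x ∈ X.filter (fun x => ℓ x = 1 / 2) \ Z, ∀ i < p, (inner ℝ x (ν i) : ℝ) = 0 := by
    intro x hx i hi
    have h1 := main i hi
    have h2 : ∑ x ∈ Z, (m x - 1) * (l ^ 2 / 16) = (0 : ℝ) := by
      refine Finset.sum_eq_zero fun x hx => ?_
      rw [hm1 x hx]
      ring
    rw [h2, zero_add] at h1
    have h3 : ∀ x ∈ X.filter (fun x => ℓ x = 1 / 2) \ Z, (0 : ℝ) ≤ m x * (inner ℝ x (ν i) * inner ℝ x (ν i)) := by
      intro x hx
      refine mul_nonneg ?_ (mul_self_nonneg _)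
      have := hm x (Finset.mem_filter.1 (Finset.mem_sdiff.1 hx).1).1
      linarith
    have h4 := (Finset.sum_eq_zero_iff_of_nonneg h3).1 (le_antisymm h1 (Finset.sum_nonneg h3)) x hx
    have h5 := hm x (Finset.mem_filter.1 (Finset.mem_sdiff.1 hx).1).1
    rcases mul_eq_zero.1 h4 with h | h
    · linarith
    · exact mul_self_eq_zero.1 h
  have hempty : X.filter (fun x => ℓ x = 1 / 2) = Z := by
    refine Finset.Subset.antisymm ?_ hZX
    intro x hx
    by_contra hxZ
    have ho := horth x (Finset.mem_sdiff.2 ⟨hx, hxZ⟩)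
    obtain ⟨hxX, hxl⟩ := Finset.mem_filter.1 hx
    obtain ⟨i, hi, b, hb, hb1, hxb⟩ := low x hxX hxl
    have h1 := ho i hi
    rw [hxb, inner_sub_left, hin i hi i hi, if_pos rfl, real_inner_comm (ν i) b, inn C.rs hb (ν i)] at h1
    obtain ⟨n, hn⟩ := C.sat.int b hb (ν i) (hmem i hi).1
    rcases hlen b hb with h | h
    · rw [h, hn] at h1
      have h2 : (n : ℝ) = 3 / 2 := by
        have : (3 / 2 - (n : ℝ)) * l = 0 := by linarith
        rcases mul_eq_zero.1 this with h | h
        · linarith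
        · exact absurd h hl.ne'
      have h3 : 2 * n = 3 := by
        have : ((2 * n : ℤ) : ℝ) = ((3 : ℤ) : ℝ) := by
          push_cast
          linarith
        exact_mod_cast this
      omega
    · rw [h, hn] at h1
      have h2 : (n : ℝ) = 3 := by
        have : (3 - (n : ℝ)) * l = 0 := by linarith
        rcases mul_eq_zero.1 this with h | h
        · linarith
        · exact absurd h hl.ne'
      have h3 := C.sat.str b hb (ν i) (hmem i hi).1 3 (by rw [hn, h2]; norm_num)
      have h4 := C.sat.neg _ h3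
      obtain ⟨j, hj, hj1⟩ := (top _).1 ⟨h4, by
        rw [map_neg, map_sub, map_smul, hb1, (hmem i hi).2]
        simp
        norm_num⟩
      have h5 : ν i + ν j = (3 : ℝ) • b := by
        rw [← hj1]
        push_cast
        abel
      have h6 : (inner ℝ (ν i + ν j) (ν i + ν j) : ℝ) = 9 * (l / 2) := by
        rw [h5, inner_smul_left, inner_smul_right, h]
        simp
        ring
      rw [inner_add_left, inner_add_right, inner_add_right, hin i hi i hi, hin j hj j hj, if_pos rfl, if_pos rfl,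
        hin i hi j hj, hin j hj i hi] at h6
      split_ifs at h6 <;> linarith
  rw [hempty, Finset.sum_congr rfl hm1, Finset.sum_const, hZh]
  simp

end

end TR
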