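import Pool.Agent.Helper94.TR.Basic

/-!
Project TR (MP_b8862a_ag): the configuration of type `A` without roots of level three.
-/

set_option linter.unusedSectionVars false
set_option linter.unusedVariables false

namespace TR

open PF PG

variable {E : Type*} [NormedAddCommGroup E] [InnerProductSpace ℝ E] {Φ X : Finset E} {ℓ : E →ₗ[ℝ] ℝ}

/-- Type `A`, no roots of level three, with the Gram matrix of the weights of the top level. -/
structure A3 (Φ X : Finset E) (ℓ : E →ₗ[ℝ] ℝ) (p : ℕ) (ν : ℕ → E) (l M : ℝ) : Prop where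
  cf : Cf Φ X ℓ
  p3 : 3 ≤ p
  lpos : 0 < l
  mem : ∀ i < p, ν i ∈ X ∧ ℓ (ν i) = 3 / 2
  top : ∀ x ∈ X, ℓ x = 3 / 2 → ∃ i < p, x = ν i
  inj : ∀ i < p, ∀ j < p, ν i = ν j → i = j
  diff : ∀ i < p, ∀ j < p, i ≠ j → ν i - ν j ∈ Φ
  gram : ∀ i < p, ∀ j < p, inner ℝ (ν i) (ν j) = if i = j then M + l / 2 else M
  max2 : ∀ g ∈ Φ, ℓ g ≤ 2
  pair : ∀ b ∈ Φ, ℓ b = 2 → ∃ i < p, ∃ j < p, i ≠ j ∧ ∃ a ∈ Φ, ℓ a = 1 ∧ a + b = ν i + ν j

theorem Inp.toA3 {p : ℕ} {ν : ℕ → E} (I : Inp Φ X ℓ p ν) (hA : IsA Φ p ν) (h2 : ∀ g ∈ Φ, ℓ g ≤ 2) :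
    ∃ l M, A3 Φ X ℓ p ν l M := by
  obtain ⟨l, hl, h⟩ := hA
  have hp := I.three
  have off : ∀ k < p, ∀ i < p, ∀ j < p, k ≠ i → k ≠ j → (inner ℝ (ν k) (ν i) : ℝ) = inner ℝ (ν k) (ν j) := by
    intro k hk i hi j hj hki hkj
    by_cases hij : i = j
    · rw [hij]
    · have h1 := (h i hi j hj hij).2.2 k hk
      rw [if_neg hki, if_neg hkj, inner_sub_right] at h1
      linarith
  have h0 : (0 : ℕ) < p := by omega
  have h1 : (1 : ℕ) < p := by omega
  have off1 : ∀ i < p, ∀ j < p, i ≠ j → (inner ℝ (ν i) (ν j) : ℝ) = inner ℝ (ν 0) (ν 1) := by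
    intro i hi j hj hij
    by_cases hi0 : i = 0
    · subst hi0
      exact off 0 h0 j hj 1 h1 hij (by omega)
    · by_cases hj0 : j = 0
      · subst hj0
        rw [real_inner_comm]
        exact off 0 h0 i hi 1 h1 (by omega) (by omega)
      · rw [off i hi j hj 0 h0 hij hi0, real_inner_comm]
        exact off 0 h0 i hi 1 h1 (by omega) (by omega)
  refine ⟨l, inner ℝ (ν 0) (ν 1), I.cf, hp, hl, fun i hi => (I.top _).2 ⟨i, hi, rfl⟩,
    fun x hx hx1 => (I.top x).1 ⟨hx, hx1⟩, I.inj, fun i hi j hj hij => (h i hi j hj hij).1, ?_, h2,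
    I.pair h2⟩
  intro i hi j hj
  by_cases hij : i = j
  · subst hij
    rw [if_pos rfl]
    obtain ⟨k, hk, hki⟩ : ∃ k < p, k ≠ i := by
      by_cases hi0 : i = 0
      · exact ⟨1, h1, by omega⟩
      · exact ⟨0, h0, by omega⟩
    have h3 := (h i hi k hk (Ne.symm hki)).2.2 i hi
    rw [if_pos rfl, if_neg (Ne.symm hki), inner_sub_right, off1 i hi k hk (Ne.symm hki)] at h3
    linarith
  · rw [if_neg hij]
    exact off1 i hi j hj hij

section

variable {p : ℕ} {ν : ℕ → E} {l M : ℝ} (A : A3 Φ X ℓ p ν l M)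
include A

theorem A3.self {i : ℕ} (hi : i < p) : (inner ℝ (ν i) (ν i) : ℝ) = M + l / 2 := by rw [A.gram i hi i hi, if_pos rfl]

theorem A3.ne {i j : ℕ} (hi : i < p) (hj : j < p) (hij : i ≠ j) : (inner ℝ (ν i) (ν j) : ℝ) = M := by
  rw [A.gram i hi j hj, if_neg hij]

theorem A3.diff_self {i j : ℕ} (hi : i < p) (hj : j < p) (hij : i ≠ j) :
    (inner ℝ (ν i - ν j) (ν i - ν j) : ℝ) = l := by
  rw [inner_sub_left, inner_sub_right, inner_sub_right, A.self hi, A.self hj, A.ne hi hj hij, A.ne hj hi (Ne.symm hij)]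
  ring

/-- (F0) A root of level zero is a difference of two weights of the top level, or orthogonal to all of them. -/
theorem A3.zero {c : E} (hc : c ∈ Φ) (h0 : ℓ c = 0) :
    (∃ i < p, ∃ j < p, i ≠ j ∧ c = ν i - ν j) ∨ ∀ i < p, (inner ℝ (ν i) c : ℝ) = 0 := by
  by_cases h1 : ∀ i < p, (inner ℝ (ν i) c : ℝ) = 0
  · exact Or.inr h1
  left
  push Not at h1
  obtain ⟨i, hi, hne⟩ := h1
  have key : ∀ c ∈ Φ, ℓ c = 0 → (0 : ℝ) < inner ℝ (ν i) c → ∃ j < p, i ≠ j ∧ c = ν i - ν j := by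
    intro c hc hc0 hp
    have h2 := A.cf.sub_mem hc (A.mem i hi).1 ((inn_pos A.cf.rs hc _).1 hp)
    obtain ⟨j, hj, hj1⟩ := A.top _ h2 (by rw [map_sub, hc0, (A.mem i hi).2, sub_zero])
    refine ⟨j, hj, ?_, ?_⟩
    · rintro rfl
      have : c = 0 := by simpa using hj1
      exact A.cf.rs.ne_zero c hc this
    · rw [← hj1]
      abel
  rcases lt_or_gt_of_ne hne with h2 | h2
  · obtain ⟨j, hj, hij, h3⟩ := key (-c) (A.cf.neg hc) (by rw [map_neg, h0, neg_zero]) (by rw [inner_neg_right]; linarith)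
    exact ⟨j, hj, i, hi, Ne.symm hij, by rw [neg_eq_iff_eq_neg.1 h3]; abel⟩
  · obtain ⟨j, hj, hij, h3⟩ := key c hc h0 h2
    exact ⟨i, hi, j, hj, hij, h3⟩

theorem A3.zero_one {t : E} (ht : t ∈ Φ) (ht2 : ℓ t = 2) {i : ℕ} (hi : i < p) : co t (ν i) = 0 ∨ co t (ν i) = 1 :=
  A.cf.zero_one ht (A.mem i hi).1 ht2 (by rw [(A.mem i hi).2]; norm_num)

/-- (3.1) with the products. -/
theorem A3.pair' {b : E} (hb : b ∈ Φ) (hb2 : ℓ b = 2) : ∃ i < p, ∃ j < p, i ≠ j ∧ ∃ a ∈ Φ, ℓ a = 1 ∧ a + b = ν i + ν j ∧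
    (inner ℝ a b : ℝ) = 0 ∧ co b (ν i) = 1 ∧ co b (ν j) = 1 ∧ co a (ν i) = 1 ∧ co a (ν j) = 1 := by
  obtain ⟨i, hi, j, hj, hij, a, ha, ha1, hab⟩ := A.pair b hb hb2
  have C := A.cf
  have h1 : co b (ν i) + co b (ν j) = co b a + 2 := by
    rw [← C.rs.co_self hb, ← co_add, ← co_add, hab]
  have h2 : 0 ≤ co b a := (inn_nonneg C.rs hb a).1 (C.root_nonneg ha hb A.max2 (by rw [ha1, hb2]; norm_num)
    (by rw [ha1, hb2]; norm_num))
  have h3 : co b (ν i) ≤ 1 := by rcases A.zero_one hb hb2 hi with h | h <;> rw [h]; norm_num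
  have h4 : co b (ν j) ≤ 1 := by rcases A.zero_one hb hb2 hj with h | h <;> rw [h]; norm_num
  have h5 : co b a = 0 := by linarith
  have h6 : co b (ν i) = 1 := by linarith
  have h7 : co b (ν j) = 1 := by linarith
  have h8 : (inner ℝ a b : ℝ) = 0 := (inn_eq_zero C.rs hb a).2 h5
  have h9 : co a b = 0 := (inn_eq_zero C.rs ha b).1 (by rw [real_inner_comm]; exact h8)
  have h10 : co a (ν i) + co a (ν j) = 2 := by
    rw [← co_add, ← hab, co_add, C.rs.co_self ha, h9, add_zero]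
  have h11 : (inner ℝ (ν i) a : ℝ) = inner ℝ (ν j) a := by
    have e : a = ν i + ν j - b := by rw [← hab]; abel
    have h12 := inn C.rs hb (ν i)
    have h13 := inn C.rs hb (ν j)
    rw [h6] at h12
    rw [h7] at h13
    rw [e, inner_sub_right, inner_sub_right, inner_add_right, inner_add_right, A.self hi, A.self hj, A.ne hi hj hij,
      A.ne hj hi (Ne.symm hij), h12, h13]
    ring
  have h12 := inn C.rs ha (ν i)
  have h13 := inn C.rs ha (ν j)
  have h14 := C.pos ha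
  have h15 : co a (ν i) = co a (ν j) := by
    have : co a (ν i) * inner ℝ a a = co a (ν j) * (inner ℝ a a : ℝ) := by linarith
    exact mul_right_cancel₀ h14.ne' this
  exact ⟨i, hi, j, hj, hij, a, ha, ha1, hab, h8, h6, h7, by linarith, by linarith⟩

end

/-- There is a root of level two and maximal length. -/
theorem Cf.exists_long (C : Cf Φ X ℓ) (h2 : ∀ g ∈ Φ, ℓ g ≤ 2) {b : E} (hb : b ∈ Φ) (hb2 : ℓ b = 2) :
    ∃ t ∈ Φ, ℓ t = 2 ∧ ∀ a ∈ Φ, (inner ℝ a a : ℝ) ≤ inner ℝ t t := by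
  obtain ⟨g, hg, hmax⟩ := C.exists_max
  by_cases hbg : (inner ℝ b b : ℝ) = inner ℝ g g
  · exact ⟨b, hb, hb2, fun a ha => by rw [hbg]; exact hmax a ha⟩
  have hb3 : (inner ℝ b b : ℝ) = inner ℝ g g / 2 := by
    rcases C.two_len hg hmax hb with h | h
    · exact absurd h hbg
    · exact h
  obtain ⟨d, hd, hdg, hbd⟩ : ∃ d ∈ Φ, (inner ℝ d d : ℝ) = inner ℝ g g ∧ (0 : ℝ) < inner ℝ b d := by
    obtain ⟨d, hd, hdg, hbd⟩ := C.near_len hg hb
    rcases lt_or_gt_of_ne hbd with h | h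
    · exact ⟨-d, C.neg hd, by rw [inner_neg_neg]; exact hdg, by rw [inner_neg_right]; linarith⟩
    · exact ⟨d, hd, hdg, h⟩
  have h3 := C.pos hd
  have h4 := C.pos hb
  have h5 := co_mul_co (C.rs.ne_zero b hb) (C.rs.ne_zero d hd)
  have h6 : 0 < co b d := (inn_pos C.rs hb d).1 (by rw [real_inner_comm]; exact hbd)
  have h7 : 0 < co d b := (inn_pos C.rs hd b).1 hbd
  have h8 : co b d = 2 := by
    rcases C.five hb hd with h | h | h | h | h
    · rw [h] at h6; norm_num at h6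
    · rw [h] at h6; norm_num at h6
    · rw [h] at h6; norm_num at h6
    · rcases C.five hd hb with f | f | f | f | f
      · rw [f] at h7; norm_num at h7
      · rw [f] at h7; norm_num at h7
      · rw [f] at h7; norm_num at h7
      · rw [h, f, hdg, hb3] at h5
        exfalso
        linarith
      · rw [h, f, hdg, hb3] at h5
        exfalso
        linarith
    · exact h
  have h9 := C.refl hb hd
  rw [h8] at h9
  have h10 : (inner ℝ (d - (2 : ℝ) • b) (d - (2 : ℝ) • b) : ℝ) = inner ℝ g g := by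
    have := C.rs.inner_refl hb d d
    rw [h8] at this
    rw [this, hdg]
  have h11 : ℓ (d - (2 : ℝ) • b) = ℓ d - 4 := by
    rw [map_sub, map_smul, hb2]
    simp
    norm_num
  have h12 : ℓ d ≤ 2 := h2 d hd
  have h13 : -2 ≤ ℓ (d - (2 : ℝ) • b) := by
    have := h2 _ (C.neg h9)
    rw [map_neg] at this
    linarith
  have h14 : ℓ d = 2 := by linarith
  exact ⟨d, hd, h14, fun a ha => by rw [hdg]; exact hmax a ha⟩

end TR
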